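import Pool.Agent.Helper99.GP.PL
import Pool.Agent.Helper80.GP.FFTau

/-!
# The product lemma in the form in which it is used (block A5)
-/

open Finset
open scoped Classical

namespace GPG

noncomputable section

variable {L : LS} {P : Par} {pb : ℝ}

/-- the product lemma in the form in which it is used -/
theorem PLU (hG : Good L P pb) (v : ℕ) (hv : v ≤ L.N) (X Y : Finset ℕ) (hXY : Disjoint X Y)
    (hX : ∀ s ∈ X ∪ Y, s < v) (S0 : ℕ) (hS0 : (1 / (1 - pb)) ^ S0 ≤ 1 + P.e1) :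
    Ex L P v (fun C => if (∀ s ∈ X ∪ Y, s < tau L P v C) then
        (run L P C v).Z v * (∏ s ∈ X, (if s ∈ C then 1 else 0) / (run L P C s).On v s) *
          ∏ s ∈ Y, pr L P C s / (run L P C s).On v s else 0) ≤
      (1 + P.e1) ^ ((X ∪ Y).card ^ 2) * (∏ q ∈ prs (X ∪ Y), bd L P S0 v q.1 q.2) *
        ∏ s ∈ X ∪ Y, P.lam s :=
  PLU_of hG v hv X Y hXY hX S0 hS0 (FF_tau hG v X Y hXY hX)

/-- inclusion of a set, with a crude constant -/
theorem PLX (hG : Good L P pb) (v : ℕ) (hv : v ≤ L.N) (X : Finset ℕ)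
    (hX : ∀ s ∈ X, s < v) (S0 : ℕ) (hS0 : (1 / (1 - pb)) ^ S0 ≤ 1 + P.e1) :
    Ex L P v (fun C => if (∀ s ∈ X, s < tau L P v C ∧ s ∈ C) then
        (run L P C v).Z v else 0) ≤
      (1 + P.e1) ^ (X.card ^ 2) * P.E4 ^ (X.card ^ 2 + X.card) * ∏ s ∈ X, P.lam s :=
  PLX_of hG v hv X hX S0 hS0 (FF_tau hG v X ∅ (disjoint_empty_right X) (by simpa using hX))

end

end GPG
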