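import Pool.Agent.Helper96.GP.Basics
import Pool.Agent.Helper7.GP.FFDefs

/-!
# The usable form of the product lemma (block A5), from the stopped product functional
-/

open Finset
open scoped Classical

namespace GPG

noncomputable section

variable {L : LS} {P : Par} {pb : ℝ}

namespace PL

/-- a point outside the linear space is hit by nobody -/
theorem not_hit_of_ge (C : Finset ℕ) (y v : ℕ) (hv : L.N ≤ v) : ¬ L.Hit C y v := by
  rintro ⟨i, hi, _, hvi, _⟩
  have := L.sub i hi hvi
  rw [mem_range] at this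
  omega

theorem Off_of_ge (C : Finset ℕ) (t v s : ℕ) (hv : L.N ≤ v) : (run L P C t).Off v s = 1 := by
  induction t with
  | zero => rfl
  | succ t ih =>
    show stepOff L P C t (run L P C t) v s = 1
    unfold stepOff
    rw [if_neg (fun h => not_hit_of_ge C t v hv h.2.2.1), ih]

theorem On_of_ge (C : Finset ℕ) (t v s : ℕ) (hv : L.N ≤ v) : (run L P C t).On v s = 1 := by
  induction t with
  | zero => rfl
  | succ t ih =>
    show stepOn L P C t (run L P C t) v s = 1
    unfold stepOn
    rw [if_neg (fun h => not_hit_of_ge C t v hv h.2.2.1), ih]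

/-- no common line: `On` stays `1` -/
theorem On_no_line (C : Finset ℕ) (t u w : ℕ) (h : ¬ ∃ i ∈ L.ls, u ∈ i ∧ w ∈ i) :
    (run L P C t).On u w = 1 := by
  induction t with
  | zero => rfl
  | succ t ih =>
    show stepOn L P C t (run L P C t) u w = 1
    unfold stepOn
    rw [if_neg, ih]
    rintro ⟨_, _, _, _, i, hi, _, hu, hw⟩
    exact h ⟨i, hi, hu, hw⟩

/-- `On` is bounded along a line -/
theorem On_line (hG : Good L P pb) (C : Finset ℕ) (t u w : ℕ) (huw : u ≠ w) (i : Finset ℕ)
    (hi : i ∈ L.ls) (hu : u ∈ i) (hw : w ∈ i) :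
    (run L P C t).On u w ≤ (1 / (1 - pb)) ^ (i.filter (fun x => x < t)).card := by
  have hpb2 := hG.pb2
  have hpb0 := hG.pb0
  have h1 : 0 < 1 - pb := by linarith
  have h1' : 1 ≤ 1 / (1 - pb) := by rw [le_div_iff₀ h1]; linarith
  induction t with
  | zero => simp [run, St.init]
  | succ t ih =>
    show stepOn L P C t (run L P C t) u w ≤ _
    unfold stepOn
    split_ifs with h
    · obtain ⟨_, _, _, _, j, hj, htj, huj, hwj⟩ := h
      have hij : j = i := L.uniq j hj i hi u w huw huj hwj hu hw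
      subst hij
      have hf : j.filter (fun x => x < t + 1) = insert t (j.filter (fun x => x < t)) := by
        ext x
        simp only [mem_filter, mem_insert]
        constructor
        · rintro ⟨hx, hxt⟩
          rcases Nat.lt_succ_iff_lt_or_eq.1 hxt with h2 | h2
          · exact Or.inr ⟨hx, h2⟩
          · exact Or.inl h2
        · rintro (rfl | ⟨hx, hxt⟩)
          · exact ⟨htj, Nat.lt_succ_self _⟩
          · exact ⟨hx, by omega⟩
      rw [hf, card_insert_of_notMem (by simp), pow_succ]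
      have hm := m_le hG C t t
      have hm0 := m_nonneg hG C t t
      rw [div_eq_mul_one_div]
      refine mul_le_mul ih ?_ ?_ ?_
      · exact one_div_le_one_div_of_le h1 (by linarith)
      · exact div_nonneg zero_le_one (by linarith)
      · exact pow_nonneg (by linarith) _
    · refine le_trans ih (pow_le_pow_right₀ h1' (card_le_card ?_))
      intro x hx
      simp only [mem_filter] at hx ⊢
      exact ⟨hx.1, by omega⟩

/-- a point of the class of positive weight, or of nonzero probability, is not stopped -/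
theorem not_stop_of_pr (C : Finset ℕ) (s : ℕ) (h : pr L P C s ≠ 0) :
    ¬ (run L P C s).stop s := by
  intro hs
  apply h
  unfold pr St.m
  rw [if_pos hs]

theorem pr_of_wt (C : Finset ℕ) (v s : ℕ) (hw : wt L P v C ≠ 0) (hs : s < v) (hsC : s ∈ C) :
    pr L P C s ≠ 0 := by
  intro h
  apply hw
  unfold wt
  apply prod_eq_zero (mem_range.2 hs)
  rw [if_pos hsC, h]

/-- number of pairs -/
theorem card_prs (T : Finset ℕ) : 2 * (prs T).card + T.card ≤ T.card ^ 2 := by
  have h1 : (prs T).card = ((prs T).map (Equiv.prodComm ℕ ℕ).toEmbedding).card :=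
    (card_map _).symm
  have hd : Disjoint (prs T) ((prs T).map (Equiv.prodComm ℕ ℕ).toEmbedding) := by
    rw [disjoint_left]
    rintro ⟨a, b⟩ h2 h3
    rw [mem_map] at h3
    obtain ⟨⟨c, d⟩, h4, h5⟩ := h3
    simp only [prs, mem_filter, mem_product] at h2 h4
    simp only [Equiv.coe_toEmbedding, Equiv.prodComm_apply, Prod.swap_prod_mk,
      Prod.mk.injEq] at h5
    omega
  have hsub : prs T ∪ (prs T).map (Equiv.prodComm ℕ ℕ).toEmbedding ⊆ T.offDiag := by
    rintro ⟨a, b⟩ h
    rw [mem_union, mem_map] at h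
    rw [mem_offDiag]
    rcases h with h | ⟨⟨c, d⟩, h4, h5⟩
    · simp only [prs, mem_filter, mem_product] at h
      exact ⟨h.1.1, h.1.2, by omega⟩
    · simp only [prs, mem_filter, mem_product] at h4
      simp only [Equiv.coe_toEmbedding, Equiv.prodComm_apply, Prod.swap_prod_mk,
        Prod.mk.injEq] at h5
      obtain ⟨rfl, rfl⟩ := h5
      exact ⟨h4.1.2, h4.1.1, by omega⟩
  have h2 := card_le_card hsub
  rw [card_union_of_disjoint hd, ← h1, offDiag_card] at h2
  have h3 : T.card ≤ T.card * T.card := Nat.le_mul_self _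
  rw [pow_two]
  omega

/-- the product functional is nonnegative -/
theorem FF_nonneg (hG : Good L P pb) (v : ℕ) (X Y : Finset ℕ) (t : ℕ) (C : Finset ℕ) :
    0 ≤ FF L P v X Y t C := by
  have hOff : ∀ u w, 0 ≤ (run L P C t).Off u w := fun u w =>
    zero_le_one.trans (Off_one_le hG C t u w)
  have hOn : ∀ u w, 0 ≤ (run L P C t).On u w := fun u w =>
    zero_le_one.trans (On_one_le hG C t u w)
  unfold FF
  refine mul_nonneg (mul_nonneg (mul_nonneg (Z_nonneg hG C t v) ?_) ?_) ?_
  · refine prod_nonneg (fun s _ => ?_)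
    unfold val
    split_ifs
    · exact m_nonneg hG C t s
    · exact zero_le_one
    · exact le_rfl
    · exact pr_nonneg hG C s
  · exact prod_nonneg (fun s _ => inv_nonneg.2 (mul_nonneg (hOff _ _) (hOn _ _)))
  · refine prod_nonneg (fun q _ => inv_nonneg.2 (mul_nonneg (hOff _ _) ?_))
    split_ifs
    · exact zero_le_one
    · exact hOn _ _

/-- the bound of one pair -/
theorem pair_le (hG : Good L P pb) (C : Finset ℕ) (v : ℕ) (S0 : ℕ)
    (hS0 : (1 / (1 - pb)) ^ S0 ≤ 1 + P.e1) (a b : ℕ) (hab : a < b) (hb : b < L.N)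
    (ha : ¬ (run L P C a).stop a) (t : ℕ) (ht : a ≤ t) :
    (run L P C t).Off a b * (if L.Coll a b v then 1 else (run L P C t).On a b) ≤
      (1 + P.e1) ^ 2 * bd L P S0 v a b := by
  have he := hG.e10
  have hE := hG.E41
  have hpb2 := hG.pb2
  have hpb0 := hG.pb0
  have h1 : 0 < 1 - pb := by linarith
  have h1' : 1 ≤ 1 / (1 - pb) := by rw [le_div_iff₀ h1]; linarith
  have hmin : min a b = a := min_eq_left hab.le
  have hoff : (run L P C t).Off a b ≤ 1 + P.e1 := by
    rw [Off_frozen C a b t (by rw [hmin]; exact ht), hmin, Off_symm]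
    exact Off_le hG C a b a ha hb hab.ne'
  have hoff0 : 0 ≤ (run L P C t).Off a b := zero_le_one.trans (Off_one_le hG C t a b)
  have hon0 : 0 ≤ (if L.Coll a b v then 1 else (run L P C t).On a b) := by
    split_ifs
    · exact zero_le_one
    · exact zero_le_one.trans (On_one_le hG C t a b)
  have hon : (if L.Coll a b v then 1 else (run L P C t).On a b) ≤
      (1 + P.e1) * bd L P S0 v a b := by
    unfold bd
    by_cases hc : L.Coll a b v
    · rw [if_pos hc]
      split_ifs
      · nlinarith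
      · linarith
    · rw [if_neg hc]
      by_cases hl : ∃ i ∈ L.ls, a ∈ i ∧ b ∈ i
      · obtain ⟨i, hi, hai, hbi⟩ := hl
        by_cases hS : S0 < i.card
        · have hL : L.Lng S0 v a b := ⟨i, hi, hai, hbi, fun hvi => hc ⟨i, hi, hai, hbi, hvi⟩, hS⟩
          rw [if_pos hL]
          have : (run L P C t).On a b ≤ P.E4 := by
            rw [On_frozen C a b t (by rw [hmin]; exact ht), hmin, On_symm]
            exact On_le hG C a b a ha hb hab.ne'
          nlinarith
        · have h2 := On_line hG C t a b hab.ne i hi hai hbi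
          have h3 : (1 / (1 - pb)) ^ (i.filter (fun x => x < t)).card ≤ (1 / (1 - pb)) ^ S0 := by
            refine pow_le_pow_right₀ h1' ?_
            exact (card_filter_le _ _).trans (not_lt.1 hS)
          have h4 : (run L P C t).On a b ≤ 1 + P.e1 := h2.trans (h3.trans hS0)
          split_ifs
          · nlinarith
          · linarith
      · rw [On_no_line C t a b hl]
        split_ifs
        · nlinarith
        · linarith
  calc (run L P C t).Off a b * (if L.Coll a b v then 1 else (run L P C t).On a b)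
      ≤ (1 + P.e1) * ((1 + P.e1) * bd L P S0 v a b) :=
        mul_le_mul hoff hon hon0 (by linarith)
    _ = (1 + P.e1) ^ 2 * bd L P S0 v a b := by ring

theorem bd_one_le (hG : Good L P pb) (S0 v a b : ℕ) : 1 ≤ bd L P S0 v a b := by
  unfold bd
  split_ifs
  · exact hG.E41
  · exact le_rfl

theorem bd_le (hG : Good L P pb) (S0 v a b : ℕ) : bd L P S0 v a b ≤ P.E4 := by
  unfold bd
  split_ifs
  · exact le_rfl
  · exact hG.E41

end PL

open PL in
/-- the product lemma in the form in which it is used -/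
theorem PLU_of (hG : Good L P pb) (v : ℕ) (hv : v ≤ L.N) (X Y : Finset ℕ) (hXY : Disjoint X Y)
    (hX : ∀ s ∈ X ∪ Y, s < v) (S0 : ℕ) (hS0 : (1 / (1 - pb)) ^ S0 ≤ 1 + P.e1)
    (hFF : Ex L P v (fun C => FF L P v X Y (tau L P v C) C) ≤ ∏ s ∈ X ∪ Y, P.lam s) :
    Ex L P v (fun C => if (∀ s ∈ X ∪ Y, s < tau L P v C) then
        (run L P C v).Z v * (∏ s ∈ X, (if s ∈ C then 1 else 0) / (run L P C s).On v s) *
          ∏ s ∈ Y, pr L P C s / (run L P C s).On v s else 0) ≤
      (1 + P.e1) ^ ((X ∪ Y).card ^ 2) * (∏ q ∈ prs (X ∪ Y), bd L P S0 v q.1 q.2) *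
        ∏ s ∈ X ∪ Y, P.lam s := by
  have he := hG.e10
  have hbd0 : ∀ q : ℕ × ℕ, 0 ≤ bd L P S0 v q.1 q.2 := fun q =>
    zero_le_one.trans (bd_one_le hG S0 v q.1 q.2)
  set M : ℝ := (1 + P.e1) ^ ((X ∪ Y).card ^ 2) * (∏ q ∈ prs (X ∪ Y), bd L P S0 v q.1 q.2)
    with hM
  have hM0 : 0 ≤ M := mul_nonneg (pow_nonneg (by linarith) _) (prod_nonneg fun q _ => hbd0 q)
  refine le_trans (Ex_mono hG v _ (fun C => M * FF L P v X Y (tau L P v C) C) ?_) ?_
  swap
  · rw [Ex_const_mul]
    exact mul_le_mul_of_nonneg_left hFF hM0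
  intro C _ hw
  have hF0 := FF_nonneg hG v X Y (tau L P v C) C
  split_ifs with hall
  swap
  · exact mul_nonneg hM0 hF0
  by_cases hzero : ∀ s ∈ X ∪ Y, pr L P C s ≠ 0 ∧ (s ∈ X → s ∈ C)
  swap
  · -- the left side vanishes
    have : (run L P C v).Z v * (∏ s ∈ X, (if s ∈ C then 1 else 0) / (run L P C s).On v s) *
          ∏ s ∈ Y, pr L P C s / (run L P C s).On v s = 0 := by
      push Not at hzero
      obtain ⟨s, hs, hs2⟩ := hzero
      by_cases hsX : s ∈ X
      · by_cases hsC : s ∈ C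
        · exact absurd hsC (hs2 (pr_of_wt C v s hw (hX s hs) hsC)).2
        · rw [prod_eq_zero hsX (by rw [if_neg hsC, zero_div])]
          ring
      · have hsY : s ∈ Y := (mem_union.1 hs).resolve_left hsX
        have hp : pr L P C s = 0 := by
          by_contra h
          exact hsX (hs2 h).1
        rw [prod_eq_zero hsY (by rw [hp, zero_div])]
        ring
    rw [this]
    exact mul_nonneg hM0 hF0
  -- the main case
  set T := tau L P v C with hT
  have hns : ∀ s ∈ X ∪ Y, ¬ (run L P C s).stop s := fun s hs =>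
    not_stop_of_pr C s (hzero s hs).1
  have hOn : ∀ s ∈ X ∪ Y, (run L P C T).On v s = (run L P C s).On v s := by
    intro s hs
    have hmin : min v s = s := min_eq_right (hX s hs).le
    rw [On_frozen C v s T (by rw [hmin]; exact (hall s hs).le), hmin]
  have hOff : ∀ s ∈ X ∪ Y, (run L P C T).Off v s ≤ 1 + P.e1 := by
    intro s hs
    have hmin : min v s = s := min_eq_right (hX s hs).le
    rw [Off_frozen C v s T (by rw [hmin]; exact (hall s hs).le), hmin]
    rcases lt_or_eq_of_le hv with h | h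
    · exact Off_le hG C s v s (hns s hs) h (hX s hs).ne'
    · rw [Off_of_ge C s v s h.ge]
      linarith
  have hOff1 : ∀ s, 1 ≤ (run L P C T).Off v s := fun s => Off_one_le hG C T v s
  have hOn1 : ∀ s, 1 ≤ (run L P C T).On v s := fun s => On_one_le hG C T v s
  set G : ℕ × ℕ → ℝ := fun q => (run L P C T).Off q.1 q.2 *
    (if L.Coll q.1 q.2 v then 1 else (run L P C T).On q.1 q.2) with hGdef
  have hG1 : ∀ q, 0 < G q := by
    intro q
    refine mul_pos (zero_lt_one.trans_le (Off_one_le hG C T q.1 q.2)) ?_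
    split_ifs
    · exact zero_lt_one
    · exact zero_lt_one.trans_le (On_one_le hG C T q.1 q.2)
  have hG2 : ∀ q ∈ prs (X ∪ Y), G q ≤ (1 + P.e1) ^ 2 * bd L P S0 v q.1 q.2 := by
    intro q hq
    simp only [prs, mem_filter, mem_product] at hq
    exact pair_le hG C v S0 hS0 q.1 q.2 hq.2 (lt_of_lt_of_le (hX _ hq.1.2) hv)
      (hns _ hq.1.1) T (hall _ hq.1.1).le
  have hval : (∏ s ∈ X ∪ Y, val L P X T C s) =
      (∏ s ∈ X, (if s ∈ C then (1 : ℝ) else 0)) * ∏ s ∈ Y, pr L P C s := by
    rw [prod_union hXY]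
    congr 1
    · refine prod_congr rfl (fun s hs => ?_)
      unfold val
      rw [if_neg (not_le.2 (hall s (mem_union_left _ hs))), if_pos hs]
    · refine prod_congr rfl (fun s hs => ?_)
      unfold val
      rw [if_neg (not_le.2 (hall s (mem_union_right _ hs))),
        if_neg (fun h => (disjoint_left.1 hXY) h hs)]
  have hleft : (run L P C v).Z v * (∏ s ∈ X, (if s ∈ C then 1 else 0) / (run L P C s).On v s) *
          ∏ s ∈ Y, pr L P C s / (run L P C s).On v s =
      (run L P C T).Z v * (∏ s ∈ X ∪ Y, val L P X T C s) *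
        ∏ s ∈ X ∪ Y, ((run L P C T).On v s)⁻¹ := by
    rw [Z_tau C v v (tau_le v C), hval, prod_union hXY]
    have e1 : (∏ s ∈ X, (if s ∈ C then (1 : ℝ) else 0) / (run L P C s).On v s) =
        (∏ s ∈ X, (if s ∈ C then (1 : ℝ) else 0)) * ∏ s ∈ X, ((run L P C T).On v s)⁻¹ := by
      rw [← prod_mul_distrib]
      refine prod_congr rfl (fun s hs => ?_)
      rw [hOn s (mem_union_left _ hs), div_eq_mul_inv]
    have e2 : (∏ s ∈ Y, pr L P C s / (run L P C s).On v s) =
        (∏ s ∈ Y, pr L P C s) * ∏ s ∈ Y, ((run L P C T).On v s)⁻¹ := by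
      rw [← prod_mul_distrib]
      refine prod_congr rfl (fun s hs => ?_)
      rw [hOn s (mem_union_right _ hs), div_eq_mul_inv]
    rw [e1, e2]
    ring
  have hFFe : FF L P v X Y T C = (run L P C T).Z v * (∏ s ∈ X ∪ Y, val L P X T C s) *
        (∏ s ∈ X ∪ Y, ((run L P C T).On v s)⁻¹) *
        ((∏ s ∈ X ∪ Y, (run L P C T).Off v s) * ∏ q ∈ prs (X ∪ Y), G q)⁻¹ := by
    unfold FF
    have e1 : (∏ s ∈ X ∪ Y, ((run L P C T).Off v s * (run L P C T).On v s)⁻¹) =
        (∏ s ∈ X ∪ Y, ((run L P C T).On v s)⁻¹) * (∏ s ∈ X ∪ Y, (run L P C T).Off v s)⁻¹ := by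
      rw [← prod_inv_distrib (f := fun s => (run L P C T).Off v s), ← prod_mul_distrib]
      refine prod_congr rfl (fun s _ => ?_)
      rw [mul_inv, mul_comm]
    have e2 : (∏ q ∈ prs (X ∪ Y), ((run L P C T).Off q.1 q.2 *
        (if L.Coll q.1 q.2 v then 1 else (run L P C T).On q.1 q.2))⁻¹) =
        (∏ q ∈ prs (X ∪ Y), G q)⁻¹ := by
      rw [← prod_inv_distrib]
    rw [e1, e2, mul_inv]
    ring
  have hD0 : 0 < (∏ s ∈ X ∪ Y, (run L P C T).Off v s) * ∏ q ∈ prs (X ∪ Y), G q :=
    mul_pos (prod_pos fun s _ => zero_lt_one.trans_le (hOff1 s)) (prod_pos fun q _ => hG1 q)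
  have hDM : (∏ s ∈ X ∪ Y, (run L P C T).Off v s) * ∏ q ∈ prs (X ∪ Y), G q ≤ M := by
    have h1 : (∏ s ∈ X ∪ Y, (run L P C T).Off v s) ≤ (1 + P.e1) ^ (X ∪ Y).card := by
      rw [← prod_const]
      exact prod_le_prod (fun s _ => zero_le_one.trans (hOff1 s)) hOff
    have h2 : (∏ q ∈ prs (X ∪ Y), G q) ≤ ((1 + P.e1) ^ 2) ^ (prs (X ∪ Y)).card *
        ∏ q ∈ prs (X ∪ Y), bd L P S0 v q.1 q.2 := by
      rw [← prod_const, ← prod_mul_distrib]
      exact prod_le_prod (fun q _ => (hG1 q).le) hG2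
    have h3 : (1 + P.e1) ^ (X ∪ Y).card * ((1 + P.e1) ^ 2) ^ (prs (X ∪ Y)).card ≤
        (1 + P.e1) ^ ((X ∪ Y).card ^ 2) := by
      rw [← pow_mul, ← pow_add]
      refine pow_le_pow_right₀ (by linarith) ?_
      have := card_prs (X ∪ Y)
      omega
    calc (∏ s ∈ X ∪ Y, (run L P C T).Off v s) * ∏ q ∈ prs (X ∪ Y), G q
        ≤ (1 + P.e1) ^ (X ∪ Y).card * (((1 + P.e1) ^ 2) ^ (prs (X ∪ Y)).card *
            ∏ q ∈ prs (X ∪ Y), bd L P S0 v q.1 q.2) :=
          mul_le_mul h1 h2 (prod_nonneg fun q _ => (hG1 q).le) (pow_nonneg (by linarith) _)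
      _ = (1 + P.e1) ^ (X ∪ Y).card * ((1 + P.e1) ^ 2) ^ (prs (X ∪ Y)).card *
            ∏ q ∈ prs (X ∪ Y), bd L P S0 v q.1 q.2 := by ring
      _ ≤ M := mul_le_mul_of_nonneg_right h3 (prod_nonneg fun q _ => hbd0 q)
  rw [hleft]
  have hA : (run L P C T).Z v * (∏ s ∈ X ∪ Y, val L P X T C s) *
        (∏ s ∈ X ∪ Y, ((run L P C T).On v s)⁻¹) =
      ((∏ s ∈ X ∪ Y, (run L P C T).Off v s) * ∏ q ∈ prs (X ∪ Y), G q) *
        FF L P v X Y T C := by
    have hgen : ∀ A D : ℝ, 0 < D → A = D * (A * D⁻¹) := by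
      intro A D hD
      field_simp
    rw [hFFe]
    exact hgen _ _ hD0
  rw [hA]
  exact mul_le_mul_of_nonneg_right hDM hF0

open PL in
/-- inclusion of a set, with a crude constant -/
theorem PLX_of (hG : Good L P pb) (v : ℕ) (hv : v ≤ L.N) (X : Finset ℕ)
    (hX : ∀ s ∈ X, s < v) (S0 : ℕ) (hS0 : (1 / (1 - pb)) ^ S0 ≤ 1 + P.e1)
    (hFF : Ex L P v (fun C => FF L P v X ∅ (tau L P v C) C) ≤ ∏ s ∈ X ∪ ∅, P.lam s) :
    Ex L P v (fun C => if (∀ s ∈ X, s < tau L P v C ∧ s ∈ C) then
        (run L P C v).Z v else 0) ≤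
      (1 + P.e1) ^ (X.card ^ 2) * P.E4 ^ (X.card ^ 2 + X.card) * ∏ s ∈ X, P.lam s := by
  have he := hG.e10
  have hE := hG.E41
  have h1 := PLU_of hG v hv X ∅ (disjoint_empty_right X) (by simpa using hX) S0 hS0 hFF
  simp only [union_empty, prod_empty, mul_one] at h1
  have hlam : 0 ≤ ∏ s ∈ X, P.lam s := prod_nonneg fun s _ => hG.lam0 s
  have h2 : Ex L P v (fun C => if (∀ s ∈ X, s < tau L P v C ∧ s ∈ C) then
        (run L P C v).Z v else 0) ≤ Ex L P v (fun C => P.E4 ^ X.card *
          (if (∀ s ∈ X, s < tau L P v C) then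
        (run L P C v).Z v * (∏ s ∈ X, (if s ∈ C then 1 else 0) / (run L P C s).On v s)
        else 0)) := by
    refine Ex_mono hG v _ _ (fun C _ hw => ?_)
    by_cases hall : ∀ s ∈ X, s < tau L P v C ∧ s ∈ C
    · rw [if_pos hall, if_pos (fun s hs => (hall s hs).1)]
      have h3 : 1 ≤ P.E4 ^ X.card *
          ∏ s ∈ X, (if s ∈ C then (1 : ℝ) else 0) / (run L P C s).On v s := by
        rw [← prod_const, ← prod_mul_distrib]
        have h4 : ∀ s ∈ X, 1 ≤ P.E4 * ((if s ∈ C then (1 : ℝ) else 0) /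
            (run L P C s).On v s) := by
          intro s hs
          rw [if_pos (hall s hs).2]
          have hns : ¬ (run L P C s).stop s :=
            not_stop_of_pr C s (pr_of_wt C v s hw (hX s hs) (hall s hs).2)
          have hon1 := On_one_le hG C s v s
          have hon : (run L P C s).On v s ≤ P.E4 := by
            rcases lt_or_eq_of_le hv with h | h
            · exact On_le hG C s v s hns h (hX s hs).ne'
            · rw [On_of_ge C s v s h.ge]
              exact hE
          rw [← mul_div_assoc, mul_one, le_div_iff₀ (by linarith)]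
          linarith
        calc (1 : ℝ) = ∏ s ∈ X, (1 : ℝ) := by rw [prod_const_one]
          _ ≤ _ := prod_le_prod (fun _ _ => zero_le_one) h4
      have hZ := Z_nonneg hG C v v
      calc (run L P C v).Z v = (run L P C v).Z v * 1 := (mul_one _).symm
        _ ≤ (run L P C v).Z v * (P.E4 ^ X.card *
          ∏ s ∈ X, (if s ∈ C then (1 : ℝ) else 0) / (run L P C s).On v s) :=
          mul_le_mul_of_nonneg_left h3 hZ
        _ = _ := by ring
    · rw [if_neg hall]
      refine mul_nonneg (pow_nonneg (by linarith) _) ?_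
      split_ifs
      · refine mul_nonneg (Z_nonneg hG C v v) (prod_nonneg fun s _ => div_nonneg ?_ ?_)
        · split_ifs
          · exact zero_le_one
          · exact le_rfl
        · exact zero_le_one.trans (On_one_le hG C s v s)
      · exact le_rfl
  rw [Ex_const_mul] at h2
  have hbdp : (∏ q ∈ prs X, bd L P S0 v q.1 q.2) ≤ P.E4 ^ (X.card ^ 2) := by
    calc (∏ q ∈ prs X, bd L P S0 v q.1 q.2) ≤ ∏ q ∈ prs X, P.E4 :=
          prod_le_prod (fun q _ => zero_le_one.trans (bd_one_le hG S0 v q.1 q.2))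
            (fun q _ => bd_le hG S0 v q.1 q.2)
      _ = P.E4 ^ (prs X).card := by rw [prod_const]
      _ ≤ P.E4 ^ (X.card ^ 2) := by
          refine pow_le_pow_right₀ hE ?_
          have := card_prs X
          omega
  have hpow : 0 ≤ (1 + P.e1) ^ (X.card ^ 2) := pow_nonneg (by linarith) _
  calc _ ≤ P.E4 ^ X.card * ((1 + P.e1) ^ (X.card ^ 2) *
        (∏ q ∈ prs X, bd L P S0 v q.1 q.2) * ∏ s ∈ X, P.lam s) :=
        h2.trans (mul_le_mul_of_nonneg_left h1 (pow_nonneg (by linarith) _))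
    _ ≤ P.E4 ^ X.card * ((1 + P.e1) ^ (X.card ^ 2) * P.E4 ^ (X.card ^ 2) *
        ∏ s ∈ X, P.lam s) := by
        refine mul_le_mul_of_nonneg_left ?_ (pow_nonneg (by linarith) _)
        exact mul_le_mul_of_nonneg_right (mul_le_mul_of_nonneg_left hbdp hpow) hlam
    _ = _ := by
        rw [pow_add]
        ring

end

end GPG
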